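import Mathlib.Algebra.Group.Subgroup.Lattice
import Mathlib.GroupTheory.Perm.Basic
import Mathlib.SetTheory.Cardinal.Finite
import Mathlib.Tactic

/-!
# A finite simple Yang-Baxter solution whose blocks have size not dividing their number

We exhibit an involutive non-degenerate simple solution of the Yang-Baxter equation on the
eight element set `Fin 2 × Fin 4` for which the two sets `{y} × Fin 4` (of size four) form a
system of blocks of imprimitivity.  Since `4` does not divide `2`, this answers the question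
positively.
-/

namespace Pool.Agent.Results.MP_9f168b_al.NonDividingBlocks

/-- `r₁₂ = r × id` on `X³` (a triple is `(x, y, z) = (x, (y, z))`). -/
def r12 {X : Type*} (r : X × X → X × X) (t : X × X × X) : X × X × X :=
  ((r (t.1, t.2.1)).1, (r (t.1, t.2.1)).2, t.2.2)

/-- `r₂₃ = id × r` on `X³`. -/
def r23 {X : Type*} (r : X × X → X × X) (t : X × X × X) : X × X × X :=
  (t.1, r t.2)

/-- An involutive non-degenerate set-theoretic solution of the Yang-Baxter equation on the
non-empty set `X`. -/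
structure Solution (X : Type*) where
  /-- the underlying set is non-empty -/
  nonempty : Nonempty X
  /-- the map `r : X² → X²` -/
  r : X × X → X × X
  /-- the braid form of the Yang-Baxter equation -/
  braid : ∀ t : X × X × X, r12 r (r23 r (r12 r t)) = r23 r (r12 r (r23 r t))
  /-- `r² = id` (in particular `r` is bijective) -/
  invol : ∀ p : X × X, r (r p) = p
  /-- every `σ_x`, `σ_x y = (r (x, y)).1`, is a permutation -/
  left_nondeg : ∀ x : X, Function.Bijective fun y : X => (r (x, y)).1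
  /-- every `τ_y`, `τ_y x = (r (x, y)).2`, is a permutation -/
  right_nondeg : ∀ y : X, Function.Bijective fun x : X => (r (x, y)).2

/-- The permutation `σ_x` of `X`, where `r (x, y) = (σ_x y, τ_y x)`. -/
noncomputable def Solution.sigma {X : Type*} (S : Solution X) (x : X) : Equiv.Perm X :=
  Equiv.ofBijective (fun y : X => (S.r (x, y)).1) (S.left_nondeg x)

/-- The permutation group `𝒢(X, r)` generated by the permutations `σ_x`. -/
noncomputable def Solution.permGroup {X : Type*} (S : Solution X) :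
    Subgroup (Equiv.Perm X) :=
  Subgroup.closure (Set.range S.sigma)

/-- `f : X → X'` is a homomorphism of solutions: `(f × f) ∘ r = r' ∘ (f × f)`. -/
def IsHom {X X' : Type*} (S : Solution X) (S' : Solution X') (f : X → X') : Prop :=
  ∀ p : X × X, Prod.map f f (S.r p) = S'.r (Prod.map f f p)

/-- A solution is simple if `X` has more than one element and every epimorphism (surjective
homomorphism) onto a solution is bijective or has a one-element target. -/
def Solution.IsSimple.{u, v} {X : Type u} (S : Solution X) : Prop :=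
  Nontrivial X ∧ ∀ (X' : Type v) (S' : Solution X') (f : X → X'),
    IsHom S S' f → Function.Surjective f → Function.Bijective f ∨ Nat.card X' = 1

/-- The sets `X_y = {y} × Z` are blocks of imprimitivity for `𝒢(X, r)`, where `X = Y × Z`:
every element of `𝒢(X, r)` maps each `X_y` onto some `X_{y'}`. -/
def Solution.FibresAreBlocks {Y Z : Type*} (S : Solution (Y × Z)) : Prop :=
  ∀ g ∈ S.permGroup, ∀ y : Y, ∃ y' : Y,
    (fun x : Y × Z => g x) '' {x : Y × Z | x.1 = y} = {x : Y × Z | x.1 = y'}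

/-! ### The eight element solution -/

/-- The table of the permutations `σ_x`, `x = 0, …, 7`. -/
def sigTab : List (List ℕ) :=
  [[3, 0, 1, 2, 4, 5, 6, 7], [4, 7, 6, 5, 0, 1, 2, 3], [4, 7, 6, 5, 2, 3, 0, 1],
   [1, 2, 3, 0, 4, 5, 6, 7], [0, 1, 2, 3, 5, 6, 7, 4], [0, 1, 2, 3, 7, 4, 5, 6],
   [6, 7, 4, 5, 0, 3, 2, 1], [4, 5, 6, 7, 0, 3, 2, 1]]

/-- The table of the inverse permutations `σ_x⁻¹`, `x = 0, …, 7`. -/
def invTab : List (List ℕ) :=
  [[1, 2, 3, 0, 4, 5, 6, 7], [4, 5, 6, 7, 0, 3, 2, 1], [6, 7, 4, 5, 0, 3, 2, 1],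
   [3, 0, 1, 2, 4, 5, 6, 7], [0, 1, 2, 3, 7, 4, 5, 6], [0, 1, 2, 3, 5, 6, 7, 4],
   [4, 7, 6, 5, 2, 3, 0, 1], [4, 7, 6, 5, 0, 1, 2, 3]]

/-- table look-up -/
def look (T : List (List ℕ)) (x y : ℕ) : ℕ := (T.getD x []).getD y 0

/-- the code of a point of `Fin 2 × Fin 4` -/
def enc (x : Fin 2 × Fin 4) : ℕ := 4 * x.1.val + x.2.val

/-- the point of `Fin 2 × Fin 4` with a given code -/
def dec (k : ℕ) : Fin 2 × Fin 4 := (Fin.ofNat 2 (k / 4), Fin.ofNat 4 k)

/-- `σ` of the eight element solution -/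
def sg (x y : Fin 2 × Fin 4) : Fin 2 × Fin 4 := dec (look sigTab (enc x) (enc y))

/-- `r` of the eight element solution: `r (x, y) = (σ_x y, σ_{σ_x y}⁻¹ x)` -/
def r8 (p : (Fin 2 × Fin 4) × (Fin 2 × Fin 4)) : (Fin 2 × Fin 4) × (Fin 2 × Fin 4) :=
  (sg p.1 p.2, dec (look invTab (enc (sg p.1 p.2)) (enc p.1)))

/-- The eight element solution. -/
def S8 : Solution (Fin 2 × Fin 4) where
  nonempty := ⟨(0, 0)⟩
  r := r8
  braid := by decide +kernel
  invol := by decide +kernel
  left_nondeg := by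
    intro x
    rw [Fintype.bijective_iff_injective_and_card]
    refine ⟨?_, rfl⟩
    revert x
    unfold Function.Injective
    decide +kernel
  right_nondeg := by
    intro x
    rw [Fintype.bijective_iff_injective_and_card]
    refine ⟨?_, rfl⟩
    revert x
    unfold Function.Injective
    decide +kernel

/-! ### Simplicity -/

/-- From the pairs in `D` (pairs of points known to have the same image under a homomorphism)
derive a new pair: `(σ_x u, σ_x v)` or `(σ_u x, σ_v x)`, where `(u, v)` is an entry of `D`. -/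
def stepD (D : List ((Fin 2 × Fin 4) × (Fin 2 × Fin 4))) (s : Bool × ℕ × ℕ) :
    List ((Fin 2 × Fin 4) × (Fin 2 × Fin 4)) :=
  let e := D.getD s.2.2 ((0, 0), (0, 0))
  D ++ [if s.1 then (sg (dec s.2.1) e.1, sg (dec s.2.1) e.2)
    else (sg e.1 (dec s.2.1), sg e.2 (dec s.2.1))]

/-- Grow the list `K` of points known to have the same image as the root. -/
def growK (D : List ((Fin 2 × Fin 4) × (Fin 2 × Fin 4))) (K : List (Fin 2 × Fin 4)) (k : ℕ) :
    List (Fin 2 × Fin 4) :=
  let e := D.getD k ((0, 0), (0, 0))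
  if e.1 ∈ K then e.2 :: K else if e.2 ∈ K then e.1 :: K else K

/-- The certificates: for `a < b` a list of derivation steps and an order of the edges. -/
def certTab : List (List (List (Bool × ℕ × ℕ) × List ℕ)) :=
  [
   [([], []),
    ([(true, 0, 0), (false, 0, 0), (true, 1, 0), (false, 2, 0), (true, 3, 0), (false, 3, 0)], [0, 1, 2, 3, 4, 5, 6]),
    ([(true, 0, 0), (false, 0, 0), (true, 1, 0), (false, 1, 0), (false, 3, 0), (false, 4, 0)], [0, 4, 5, 6, 2, 3, 1]),
    ([(true, 0, 0), (false, 0, 0), (true, 1, 0), (true, 6, 0), (true, 7, 0), (false, 0, 1)], [0, 1, 2, 6, 3, 4, 5]),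
    ([(true, 0, 0), (false, 1, 0), (true, 2, 0), (true, 4, 0), (true, 5, 0), (false, 5, 0)], [0, 1, 2, 3, 4, 5, 6]),
    ([(true, 0, 0), (true, 1, 0), (false, 1, 0), (false, 2, 0), (true, 4, 0), (false, 4, 0)], [0, 1, 3, 4, 5, 2, 6]),
    ([(true, 0, 0), (true, 1, 0), (false, 1, 0), (true, 2, 0), (false, 2, 0), (false, 3, 0)], [0, 1, 3, 4, 5, 2, 6]),
    ([(true, 0, 0), (false, 0, 0), (false, 1, 0), (true, 2, 0), (false, 2, 0), (false, 3, 0)], [0, 1, 2, 3, 4, 5, 6])],
   [([], []),
    ([], []),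
    ([(true, 0, 0), (true, 1, 0), (true, 3, 0), (true, 6, 0), (true, 7, 0), (false, 0, 1)], [1, 0, 3, 6, 4, 2, 5]),
    ([(true, 0, 0), (false, 0, 0), (true, 1, 0), (false, 1, 0), (false, 2, 0), (false, 4, 0)], [1, 4, 6, 2, 3, 0, 5]),
    ([(true, 0, 0), (true, 1, 0), (true, 2, 0), (false, 2, 0), (false, 3, 0), (true, 4, 0)], [1, 2, 3, 4, 0, 6, 5]),
    ([(true, 0, 0), (false, 0, 0), (true, 1, 0), (true, 2, 0), (false, 2, 0), (true, 3, 0)], [1, 2, 6, 0, 3, 4, 5]),
    ([(true, 0, 0), (false, 0, 0), (true, 1, 0), (true, 2, 0), (true, 5, 0), (false, 5, 0)], [1, 2, 4, 0, 3, 5, 6]),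
    ([(true, 0, 0), (true, 1, 0), (false, 1, 0), (true, 3, 0), (true, 4, 0), (true, 5, 0)], [1, 2, 3, 4, 0, 5, 6])],
   [([], []),
    ([], []),
    ([], []),
    ([(true, 0, 0), (false, 0, 0), (true, 1, 0), (false, 1, 0), (false, 2, 0), (true, 3, 0)], [6, 0, 1, 2, 4, 5, 3]),
    ([(true, 0, 0), (false, 0, 0), (true, 1, 0), (false, 1, 0), (true, 3, 0), (false, 3, 0)], [2, 3, 5, 6, 0, 1, 4]),
    ([(true, 0, 0), (false, 0, 0), (true, 1, 0), (false, 1, 0), (true, 2, 0), (true, 5, 0)], [2, 6, 0, 1, 3, 4, 5]),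
    ([(true, 0, 0), (false, 0, 0), (true, 2, 0), (true, 3, 0), (true, 4, 0), (true, 5, 0)], [3, 4, 0, 1, 2, 5, 6]),
    ([(true, 0, 0), (true, 1, 0), (false, 1, 0), (true, 2, 0), (true, 4, 0), (false, 4, 0)], [6, 0, 1, 3, 4, 5, 2])],
   [([], []),
    ([], []),
    ([], []),
    ([], []),
    ([(true, 0, 0), (false, 0, 0), (true, 1, 0), (false, 1, 0), (true, 5, 0), (false, 5, 0)], [2, 3, 4, 6, 1, 0, 5]),
    ([(true, 0, 0), (false, 0, 0), (true, 1, 0), (true, 4, 0), (false, 4, 0), (true, 5, 0)], [2, 3, 0, 1, 4, 6, 5]),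
    ([(true, 0, 0), (false, 0, 0), (true, 1, 0), (false, 1, 0), (true, 2, 0), (false, 2, 0)], [5, 3, 4, 1, 2, 0, 6]),
    ([(true, 0, 0), (false, 0, 0), (true, 1, 0), (true, 2, 0), (false, 2, 0), (true, 3, 0)], [6, 0, 1, 3, 4, 5, 2])],
   [([], []),
    ([], []),
    ([], []),
    ([], []),
    ([], []),
    ([(true, 1, 0), (true, 2, 0), (true, 4, 0), (false, 4, 0), (true, 6, 0), (false, 0, 1)], [1, 5, 6, 0, 2, 3, 4]),
    ([(false, 0, 0), (true, 1, 0), (false, 1, 0), (false, 3, 0), (true, 4, 0), (false, 4, 0)], [1, 2, 6, 0, 4, 5, 3]),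
    ([(false, 0, 0), (true, 1, 0), (false, 1, 0), (true, 2, 0), (false, 2, 0), (true, 4, 0)], [1, 2, 6, 0, 3, 4, 5])],
   [([], []),
    ([], []),
    ([], []),
    ([], []),
    ([], []),
    ([], []),
    ([(false, 0, 0), (true, 1, 0), (false, 1, 0), (true, 2, 0), (false, 2, 0), (true, 4, 0)], [1, 4, 6, 0, 3, 2, 5]),
    ([(false, 0, 0), (true, 1, 0), (false, 1, 0), (false, 2, 0), (true, 4, 0), (false, 4, 0)], [1, 5, 6, 0, 3, 4, 2])],
   [([], []),
    ([], []),
    ([], []),
    ([], []),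
    ([], []),
    ([], []),
    ([], []),
    ([(false, 0, 0), (true, 1, 0), (false, 1, 0), (true, 2, 0), (true, 6, 0), (false, 0, 1)], [4, 5, 6, 0, 1, 2, 3])],
   [([], []),
    ([], []),
    ([], []),
    ([], []),
    ([], []),
    ([], []),
    ([], []),
    ([], [])]]

/-- certificate look-up -/
def cert (a b : Fin 2 × Fin 4) : List (Bool × ℕ × ℕ) × List ℕ :=
  (certTab.getD (enc a) []).getD (enc b) ([], [])

/-- The list of points derived to have the same image as `(0, 0)`, if `a` and `b` have the same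
image. -/
def derived (a b : Fin 2 × Fin 4) : List (Fin 2 × Fin 4) :=
  (cert a b).2.foldl (growK ((cert a b).1.foldl stepD [(a, b)])) [(0, 0)]

theorem derived_full : ∀ a b : Fin 2 × Fin 4, enc a < enc b → ∀ c, c ∈ derived a b := by
  decide +kernel

theorem enc_inj : ∀ a b : Fin 2 × Fin 4, a ≠ b → enc a < enc b ∨ enc b < enc a := by
  decide +kernel

theorem getD_prop {α : Type*} (P : α → Prop) (D : List α) (d : α) (hd : P d)
    (h : ∀ e ∈ D, P e) (k : ℕ) : P (D.getD k d) := by
  rw [List.getD_eq_getElem?_getD]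
  cases h' : D[k]? with
  | none => simpa using hd
  | some a => simpa using h a (List.mem_of_getElem? h')

section

variable {X' : Type*} {f : Fin 2 × Fin 4 → X'}

theorem stepD_sound (S' : Solution X') (hf : IsHom S8 S' f)
    (D : List ((Fin 2 × Fin 4) × (Fin 2 × Fin 4))) (s : Bool × ℕ × ℕ)
    (hD : ∀ e ∈ D, f e.1 = f e.2) : ∀ e ∈ stepD D s, f e.1 = f e.2 := by
  have hs : ∀ x y : Fin 2 × Fin 4, f (sg x y) = (S'.r (f x, f y)).1 := by
    intro x y
    have := congrArg Prod.fst (hf (x, y))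
    simpa [S8, r8] using this
  have he : f (D.getD s.2.2 ((0, 0), (0, 0))).1 = f (D.getD s.2.2 ((0, 0), (0, 0))).2 :=
    getD_prop (fun e => f e.1 = f e.2) D _ rfl hD _
  intro e hm
  unfold stepD at hm
  rw [List.mem_append] at hm
  rcases hm with hm | hm
  · exact hD e hm
  · rw [List.mem_singleton] at hm
    subst hm
    cases s.1
    · simp only [Bool.false_eq_true, if_false]
      rw [hs, hs, he]
    · simp only [if_true]
      rw [hs, hs, he]

theorem foldD_sound (S' : Solution X') (hf : IsHom S8 S' f) (L : List (Bool × ℕ × ℕ)) :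
    ∀ D : List ((Fin 2 × Fin 4) × (Fin 2 × Fin 4)), (∀ e ∈ D, f e.1 = f e.2) →
      ∀ e ∈ L.foldl stepD D, f e.1 = f e.2 := by
  induction L with
  | nil => intro D hD; simpa using hD
  | cons s L ih =>
    intro D hD
    exact ih _ (stepD_sound S' hf D s hD)

theorem growK_sound (D : List ((Fin 2 × Fin 4) × (Fin 2 × Fin 4)))
    (hD : ∀ e ∈ D, f e.1 = f e.2) (K : List (Fin 2 × Fin 4)) (k : ℕ)
    (hK : ∀ c ∈ K, f c = f (0, 0)) : ∀ c ∈ growK D K k, f c = f (0, 0) := by
  have he : f (D.getD k ((0, 0), (0, 0))).1 = f (D.getD k ((0, 0), (0, 0))).2 :=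
    getD_prop (fun e => f e.1 = f e.2) D _ rfl hD _
  intro c hc
  unfold growK at hc
  simp only at hc
  split_ifs at hc with h1 h2
  · rcases List.mem_cons.1 hc with rfl | hc
    · rw [← he]; exact hK _ h1
    · exact hK _ hc
  · rcases List.mem_cons.1 hc with rfl | hc
    · rw [he]; exact hK _ h2
    · exact hK _ hc
  · exact hK _ hc

theorem foldK_sound (D : List ((Fin 2 × Fin 4) × (Fin 2 × Fin 4)))
    (hD : ∀ e ∈ D, f e.1 = f e.2) (L : List ℕ) : ∀ K : List (Fin 2 × Fin 4),
    (∀ c ∈ K, f c = f (0, 0)) → ∀ c ∈ L.foldl (growK D) K, f c = f (0, 0) := by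
  induction L with
  | nil => intro K hK; simpa using hK
  | cons s L ih =>
    intro K hK
    exact ih _ (growK_sound D hD K s hK)

theorem const_of_eq (S' : Solution X') (hf : IsHom S8 S' f) {a b : Fin 2 × Fin 4}
    (hab : enc a < enc b) (h : f a = f b) (c : Fin 2 × Fin 4) : f c = f (0, 0) := by
  refine foldK_sound _ (foldD_sound S' hf (cert a b).1 [(a, b)] ?_) (cert a b).2 [(0, 0)] ?_ c
    (derived_full a b hab c)
  · intro e he
    rw [List.mem_singleton] at he
    subst he
    exact h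
  · intro c hc
    rw [List.mem_singleton] at hc
    rw [hc]

end

theorem S8_simple.{v} : Solution.IsSimple.{0, v} S8 := by
  refine ⟨⟨(0, 0), (0, 1), by decide⟩, ?_⟩
  intro X' S' f hf hsurj
  by_cases hinj : Function.Injective f
  · exact Or.inl ⟨hinj, hsurj⟩
  · right
    unfold Function.Injective at hinj
    push Not at hinj
    obtain ⟨a, b, hab, hne⟩ := hinj
    have hconst : ∀ c, f c = f (0, 0) := by
      rcases enc_inj a b hne with h | h
      · exact const_of_eq S' hf h hab
      · exact const_of_eq S' hf h hab.symm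
    have : Nat.card X' = Nat.card Unit := by
      refine Nat.card_congr ⟨fun _ => (), fun _ => f (0, 0), ?_, fun _ => rfl⟩
      intro x
      obtain ⟨c, rfl⟩ := hsurj x
      exact (hconst c).symm
    simpa using this

/-! ### The blocks -/

theorem sg_fst : ∀ x y z : Fin 2 × Fin 4, y.1 = z.1 → (sg x y).1 = (sg x z).1 := by
  decide +kernel

theorem S8_blocks : S8.FibresAreBlocks := by
  have key : ∀ g ∈ S8.permGroup, ∀ y z : Fin 2 × Fin 4, y.1 = z.1 ↔ (g y).1 = (g z).1 := by
    intro g hg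
    induction hg using Subgroup.closure_induction with
    | mem g hg =>
      obtain ⟨x, rfl⟩ := hg
      have h1 : ∀ y : Fin 2 × Fin 4, S8.sigma x y = sg x y := fun y => rfl
      intro y z
      rw [h1, h1]
      revert x y z
      decide +kernel
    | one => intro y z; rfl
    | mul a b _ _ ha hb => intro y z; rw [hb y z, ha (b y) (b z)]; rfl
    | inv a _ ha =>
      intro y z
      have := ha (a⁻¹ y) (a⁻¹ z)
      simpa using this.symm
  intro g hg y
  refine ⟨(g (y, 0)).1, ?_⟩
  ext x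
  constructor
  · rintro ⟨z, hz, rfl⟩
    exact ((key g hg z (y, 0)).1 hz)
  · intro hx
    refine ⟨g⁻¹ x, ?_, by simp⟩
    have := (key g hg (g⁻¹ x) (y, 0))
    simp only [Set.mem_ofPred_eq] at hx ⊢
    rw [this]
    simpa using hx

/-- **A finite simple solution with non-dividing blocks.**  There are finite sets `Y`, `Z` with
more than one element and a simple involutive non-degenerate solution of the Yang-Baxter equation
on `X = Y × Z` such that the sets `X_y = {y} × Z` are blocks of imprimitivity for the action of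
`𝒢(X, r)` and `|Z|` does not divide `|Y|`. -/
theorem result.{v} :
    ∃ (Y Z : Type) (_ : Fintype Y) (_ : Fintype Z) (S : Solution (Y × Z)),
      1 < Fintype.card Y ∧ 1 < Fintype.card Z ∧ Solution.IsSimple.{0, v} S ∧
        S.FibresAreBlocks ∧ ¬ Fintype.card Z ∣ Fintype.card Y :=
  ⟨Fin 2, Fin 4, inferInstance, inferInstance, S8, by simp, by simp, S8_simple, S8_blocks,
    by simp⟩

end Pool.Agent.Results.MP_9f168b_al.NonDividingBlocks
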